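import Pool.Agent.Helper54.GA.Stmts

/-!
# GA-G2: lower bound for the probability that the pair has not merged

The level `lv x = x.1` is a submartingale (`RU.av_lv_ge`), and its square grows by at most `1` in a step, and only before the merging:
`av lv² ≤ lv² + uu 0`. For every `l ≥ 0` one has `2 l lv - l² lv² ≤ uu 0`, so
`2 l lv - l² (lv² + ∑ i < k, uu i) ≤ uu k` by induction. By `RU.uu_sharp`, `∑ i < k, uu i x ≤ B j √k` for `j = lv x ≥ 1`, and
`l = 1 / (j + B √k)` gives `uu k x ≥ j / (j + B √k) ≥ min 1 (j / √k) / (1 + B)`.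
-/

set_option autoImplicit false

namespace Pool.Agent.Helper34.GA

open Finset Pool.Agent.Helper8.CO Pool.Agent.Helper8.RU

private theorem av_sq34 (x : ℕ × ℤ) : av (fun t => lv t ^ 2) x ≤ lv x ^ 2 + uu 0 x := by
  obtain ⟨c, b⟩ := x
  have hu := uu_nonneg 0 (c, b)
  unfold av lv
  by_cases hb : Even b
  · rw [nx0_even hb, nx1_even hb]
    simp only
    linarith
  · have h1 : uu 0 (c, b) = 1 := by
      refine uu_zero_ne fun h => hb ?_
      rw [(Prod.mk.inj h).2]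
      exact Even.zero
    rw [h1]
    by_cases hc : c = 0
    · subst hc
      rw [nx0_odd hb, nx1_odd_zero hb]
      simp only
      push_cast
      norm_num
    · have hc1 : 1 ≤ c := Nat.one_le_iff_ne_zero.2 hc
      rw [nx0_odd hb, nx1_odd hb hc]
      simp only
      rw [Nat.cast_sub hc1]
      push_cast
      nlinarith

private theorem low34 {l : ℝ} (hl : 0 ≤ l) (k : ℕ) (x : ℕ × ℤ) :
    2 * l * lv x - l ^ 2 * (lv x ^ 2 + ∑ i ∈ range k, uu i x) ≤ uu k x := by
  induction k generalizing x with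
  | zero =>
    rw [sum_range_zero, add_zero]
    by_cases h0 : x = (0, 0)
    · subst h0
      rw [uu_merged]
      unfold lv
      simp
    · rw [uu_zero_ne h0]
      nlinarith [sq_nonneg (1 - l * lv x)]
  | succ k ih =>
    have h1 : av (fun t => 2 * l * lv t + (-l ^ 2) * (lv t ^ 2 + ∑ i ∈ range k, uu i t)) x ≤ uu (k + 1) x := by
      rw [uu_succ]
      refine av_mono (fun t => ?_) x
      have := ih t
      linarith
    rw [av_add (fun t => 2 * l * lv t) (fun t => (-l ^ 2) * (lv t ^ 2 + ∑ i ∈ range k, uu i t)) x,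
      av_smul (2 * l) lv x, av_smul (-l ^ 2) (fun t => lv t ^ 2 + ∑ i ∈ range k, uu i t) x,
      av_add (fun t => lv t ^ 2) (fun t => ∑ i ∈ range k, uu i t) x, av_sum (range k) uu x] at h1
    have h2 : ∑ i ∈ range k, av (uu i) x = ∑ i ∈ range k, uu (i + 1) x :=
      sum_congr rfl fun i _ => (uu_succ i x).symm
    have h3 := sum_range_succ' (fun i => uu i x) k
    have h4 := av_lv_ge x
    have h4' : lv x ≤ av lv x := h4
    have h5 := av_sq34 x
    rw [h3]
    rw [h2] at h1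
    have h6 : 2 * l * lv x ≤ 2 * l * av lv x := mul_le_mul_of_nonneg_left h4' (by linarith)
    have h7 : l ^ 2 * (av (fun t => lv t ^ 2) x + ∑ i ∈ range k, uu (i + 1) x) ≤
        l ^ 2 * (lv x ^ 2 + (∑ i ∈ range k, uu (i + 1) x + uu 0 x)) :=
      mul_le_mul_of_nonneg_left (by linarith) (sq_nonneg l)
    linarith

private theorem sqrt_sum34 (k : ℕ) : ∑ i ∈ range k, 1 / Real.sqrt ((i : ℝ) + 1) ≤ 2 * Real.sqrt k := by
  induction k with
  | zero => simp
  | succ k ih =>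
    rw [sum_range_succ]
    have h0 : (0 : ℝ) ≤ k := Nat.cast_nonneg k
    have h1 := Real.sq_sqrt h0
    have h2 := Real.sq_sqrt (by linarith : (0 : ℝ) ≤ (k : ℝ) + 1)
    have h3 := Real.sqrt_nonneg (k : ℝ)
    have h4 : 0 < Real.sqrt ((k : ℝ) + 1) := Real.sqrt_pos.2 (by linarith)
    push_cast
    have h5 : 1 / Real.sqrt ((k : ℝ) + 1) ≤ 2 * Real.sqrt ((k : ℝ) + 1) - 2 * Real.sqrt k := by
      rw [div_le_iff₀ h4]
      nlinarith [sq_nonneg (Real.sqrt ((k : ℝ) + 1) - Real.sqrt k)]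
    linarith

private theorem sum34 {D : ℝ} (hu : ∀ (k : ℕ) (x : ℕ × ℤ), 1 ≤ k → uu k x ≤ D * (x.1 + qq x + 1) / Real.sqrt k)
    (hD : 0 < D) (k : ℕ) (x : ℕ × ℤ) (hk : 1 ≤ k) :
    ∑ i ∈ range k, uu i x ≤ 1 + 2 * D * (x.1 + qq x + 1) * Real.sqrt k := by
  obtain ⟨m, rfl⟩ : ∃ m, k = m + 1 := ⟨k - 1, by omega⟩
  rw [sum_range_succ']
  have h1 := uu_le_one 0 x
  have hA : 0 ≤ D * (x.1 + qq x + 1) := by
    have := qq_nonneg x
    positivity
  have h2 : ∑ i ∈ range m, uu (i + 1) x ≤ D * (x.1 + qq x + 1) * ∑ i ∈ range m, 1 / Real.sqrt ((i : ℝ) + 1) := by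
    rw [mul_sum]
    refine sum_le_sum fun i _ => ?_
    have h3 := hu (i + 1) x (by omega)
    push_cast at h3
    rw [mul_one_div]
    exact h3
  have h3 := mul_le_mul_of_nonneg_left (sqrt_sum34 m) hA
  have h4 : Real.sqrt (m : ℝ) ≤ Real.sqrt ((m + 1 : ℕ) : ℝ) := Real.sqrt_le_sqrt (by push_cast; linarith)
  have h5 := mul_le_mul_of_nonneg_left h4 hA
  linarith

theorem G2 : Pool.Agent.Helper54.GA.StmtG2 := by
  intro Q hQ
  obtain ⟨D, hD, hu⟩ := uu_sharp
  obtain ⟨B, hB⟩ : ∃ B : ℝ, B = 1 + 2 * D * (Q + 2) := ⟨_, rfl⟩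
  have hB0 : 0 < B := by rw [hB]; positivity
  refine ⟨1 / (1 + B), by positivity, fun k s hk hs hq => ?_⟩
  obtain ⟨j, hj⟩ : ∃ j : ℝ, j = (s.1 : ℝ) := ⟨_, rfl⟩
  have hj1 : 1 ≤ j := by rw [hj]; exact_mod_cast hs
  have hk1 : (1 : ℝ) ≤ k := by exact_mod_cast hk
  obtain ⟨q, hq'⟩ : ∃ q : ℝ, q = Real.sqrt k := ⟨_, rfl⟩
  have hq1 : 1 ≤ q := by
    rw [hq', Real.le_sqrt' one_pos]
    linarith
  have hS : ∑ i ∈ range k, uu i s ≤ B * (j * q) := by
    have h1 := sum34 hu hD k s hk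
    rw [← hj, ← hq'] at h1
    have h2 : j + qq s + 1 ≤ (Q + 2) * j := by nlinarith
    have h3 : 2 * D * (j + qq s + 1) * q ≤ 2 * D * ((Q + 2) * j) * q :=
      mul_le_mul_of_nonneg_right (mul_le_mul_of_nonneg_left h2 (by linarith)) (by linarith)
    have h4 : 1 ≤ j * q := by nlinarith
    rw [hB]
    linarith
  have hden : 0 < j + B * q := by positivity
  have h1 := low34 (l := 1 / (j + B * q)) (by positivity) k s
  have hlv : lv s = j := hj.symm
  rw [hlv] at h1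
  have h2 : (1 / (j + B * q)) ^ 2 * (j ^ 2 + ∑ i ∈ range k, uu i s) ≤
      (1 / (j + B * q)) ^ 2 * (j * (j + B * q)) :=
    mul_le_mul_of_nonneg_left (by linarith) (sq_nonneg _)
  have h3 : (1 / (j + B * q)) ^ 2 * (j * (j + B * q)) = j / (j + B * q) := by
    field_simp
  have h4 : 2 * (1 / (j + B * q)) * j = 2 * (j / (j + B * q)) := by ring
  have h5 : j / (j + B * q) ≤ uu k s := by linarith
  refine le_trans ?_ h5
  rw [← hj, ← hq']
  obtain ⟨m, hm⟩ : ∃ m : ℝ, m = min 1 (j / q) := ⟨_, rfl⟩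
  have hm1 : m ≤ 1 := by rw [hm]; exact min_le_left _ _
  have hm2 : m * q ≤ j := by
    have : m ≤ j / q := by rw [hm]; exact min_le_right _ _
    rwa [le_div_iff₀ (by linarith)] at this
  rw [← hm, one_div_mul_eq_div, div_le_div_iff₀ (by positivity) hden]
  nlinarith [mul_le_mul_of_nonneg_left hm2 hB0.le, mul_le_mul_of_nonneg_left hm1 (by linarith : 0 ≤ j)]

end Pool.Agent.Helper34.GA
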