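import Pool.Agent.Helper54.GA.Stmts

/-!
# GA-G3A: the chain describes the pairs `(y, 3 ^ c y + ρ β)` exactly

`CO.cnt_le` gives `≤`; all the steps of its proof are equivalences, and this file gives `≥`.
-/

set_option autoImplicit false

namespace Pool.Agent.Helper34.GA

open Pool.Agent.Helper68.Moeller Pool.Agent.Helper8.CO Finset Classical

variable {ρ : ℤ}

private theorem T_even34 (z : ℤ) : T 2 3 (fun _ => ρ) (2 * z) = z := by
  unfold T
  rw [if_pos (by exact ⟨z, rfl⟩)]
  exact Int.mul_ediv_cancel_left z (by norm_num)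

private theorem T_odd34 {r : ℤ} (hr : ρ = 2 * r + 1) (z : ℤ) :
    T 2 3 (fun _ => ρ) (2 * z + 1) = 3 * z + (1 - r) := by
  unfold T
  rw [if_neg (by
    intro h
    have : (2 : ℤ) ∣ 2 * z + 1 := h
    omega)]
  push_cast
  rw [hr]
  omega

private theorem cnt_even34 (k : ℕ) (z : ℤ) :
    cnt 2 3 (fun _ => ρ) (k + 1) (2 * z) = cnt 2 3 (fun _ => ρ) k z := by
  rw [cnt, T_even34, if_pos (by exact ⟨z, rfl⟩), zero_add]

private theorem cnt_odd34 {r : ℤ} (hr : ρ = 2 * r + 1) (k : ℕ) (z : ℤ) :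
    cnt 2 3 (fun _ => ρ) (k + 1) (2 * z + 1) = 1 + cnt 2 3 (fun _ => ρ) k (3 * z + (1 - r)) := by
  rw [cnt, T_odd34 hr, if_neg (by
    intro h
    have : (2 : ℤ) ∣ 2 * z + 1 := h
    omega)]

private theorem MM_ee34 {k c : ℕ} {z z' : ℤ} (h : MM ρ (k + 1) c (2 * z) (2 * z')) : MM ρ k c z z' := by
  unfold MM at *
  rw [Function.iterate_succ_apply, Function.iterate_succ_apply, T_even34, T_even34, cnt_even34, cnt_even34] at h
  exact h

private theorem MM_eo34 {r : ℤ} (hr : ρ = 2 * r + 1) {k c : ℕ} {z z' : ℤ}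
    (h : MM ρ (k + 1) c (2 * z) (2 * z' + 1)) : MM ρ k (c + 1) z (3 * z' + (1 - r)) := by
  unfold MM at *
  rw [Function.iterate_succ_apply, Function.iterate_succ_apply, T_even34, T_odd34 hr, cnt_even34,
    cnt_odd34 hr] at h
  exact ⟨h.1, by omega⟩

private theorem MM_oo34 {r : ℤ} (hr : ρ = 2 * r + 1) {k c : ℕ} {z z' : ℤ}
    (h : MM ρ (k + 1) c (2 * z + 1) (2 * z' + 1)) : MM ρ k c (3 * z + (1 - r)) (3 * z' + (1 - r)) := by
  unfold MM at *
  rw [Function.iterate_succ_apply, Function.iterate_succ_apply, T_odd34 hr, T_odd34 hr, cnt_odd34 hr,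
    cnt_odd34 hr] at h
  exact ⟨h.1, by omega⟩

private theorem MM_oe34 {r : ℤ} (hr : ρ = 2 * r + 1) {k c : ℕ} {z z' : ℤ}
    (h : MM ρ (k + 1) (c + 1) (2 * z + 1) (2 * z')) : MM ρ k c (3 * z + (1 - r)) z' := by
  unfold MM at *
  rw [Function.iterate_succ_apply, Function.iterate_succ_apply, T_odd34 hr, T_even34, cnt_odd34 hr,
    cnt_even34] at h
  exact ⟨h.1, by omega⟩

private theorem MM_oe034 {r : ℤ} (hr : ρ = 2 * r + 1) {k : ℕ} {z z' : ℤ}
    (h : MM ρ (k + 1) 0 (2 * z + 1) (2 * z')) : MM ρ k 1 z' (3 * z + (1 - r)) := by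
  unfold MM at *
  rw [Function.iterate_succ_apply, Function.iterate_succ_apply, T_odd34 hr, T_even34, cnt_odd34 hr,
    cnt_even34] at h
  exact ⟨h.1.symm, by omega⟩

private theorem card_le34 (m : ℕ) (P Q : ℕ → Prop) {_ : DecidablePred P} {_ : DecidablePred Q}
    (h : ∀ y, P y → Q y) : ((range m).filter P).card ≤ ((range m).filter Q).card :=
  card_le_card (monotone_filter_right _ fun y _ => h y)

theorem cnt_ge34 (hρ : Odd ρ) (k c : ℕ) (β : ℤ) :
    (2 : ℝ) ^ k * uu k (c, β) ≤
      (((range (2 ^ k)).filter (fun y : ℕ => ¬ MM ρ k c y (3 ^ c * y + ρ * β))).card : ℝ) := by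
  obtain ⟨r, hr⟩ := id hρ
  induction k generalizing c β with
  | zero =>
    by_cases h0 : (c, β) = (0, 0)
    · rw [h0, uu_merged, mul_zero]
      exact Nat.cast_nonneg _
    · rw [uu_zero_ne h0]
      have h1 : (range (2 ^ 0)).filter (fun y : ℕ => ¬ MM ρ 0 c y (3 ^ c * y + ρ * β)) = range (2 ^ 0) := by
        rw [filter_eq_self]
        intro y hy hM
        rw [pow_zero, mem_range] at hy
        have hy0 : y = 0 := by omega
        subst hy0
        obtain ⟨h2, h3⟩ := hM
        apply h0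
        have h4 : c = 0 := by
          simp only [cnt] at h3
          omega
        have h5 : ρ * β = 0 := by
          simp only [Function.iterate_zero, id_eq] at h2
          push_cast at h2
          linarith
        have h6 : ρ ≠ 0 := by omega
        have h7 : β = 0 := by
          rcases mul_eq_zero.1 h5 with h | h
          · exact absurd h h6
          · exact h
        rw [h4, h7]
      rw [h1, card_range]
      simp
  | succ k ih =>
    have hper : ∀ (c1 : ℕ) (β1 : ℤ) (x j : ℤ), ¬ MM ρ k c1 (x + 2 ^ k * j) (3 ^ c1 * (x + 2 ^ k * j) + ρ * β1) ↔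
        ¬ MM ρ k c1 x (3 ^ c1 * x + ρ * β1) := fun c1 β1 x j => not_congr (MM_periodic hρ k c1 β1 x j)
    have hodd3 : Odd (3 : ℤ) := ⟨1, by norm_num⟩
    have h3c : Odd ((3 : ℤ) ^ c) := hodd3.pow
    obtain ⟨t, ht⟩ := h3c
    -- the digit 0
    have hE : 2 ^ k * uu k (nx0 (c, β)) ≤ (((range (2 ^ k)).filter (fun y : ℕ => ¬ MM ρ (k + 1) c (2 * (y : ℤ))
        (3 ^ c * (2 * (y : ℤ)) + ρ * β))).card : ℝ) := by
      rcases Int.even_or_odd' β with ⟨b, hb | hb⟩
      · have hbe : Even β := ⟨b, by rw [hb]; ring⟩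
        have hb2 : β / 2 = b := by rw [hb]; exact Int.mul_ediv_cancel_left b (by norm_num)
        rw [nx0_even hbe, hb2]
        refine le_trans (ih c b) (Nat.cast_le.2 (card_le34 _ _ _ ?_))
        intro y hy h
        apply hy
        have e : 2 * (3 ^ c * (y : ℤ) + ρ * b) = 3 ^ c * (2 * (y : ℤ)) + ρ * β := by rw [hb]; ring
        rw [← e] at h
        exact MM_ee34 h
      · have hbo : ¬ Even β := by
          rw [Int.not_even_iff_odd]
          exact ⟨b, hb⟩
        have hb2 : (3 * β - 1) / 2 = 3 * b + 1 := by omega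
        rw [nx0_odd hbo, hb2]
        refine le_trans (ih (c + 1) (3 * b + 1)) (Nat.cast_le.2 (card_le34 _ _ _ ?_))
        intro y hy h
        apply hy
        have e1 : (3 : ℤ) ^ (c + 1) * (y : ℤ) + ρ * (3 * b + 1) =
            3 * (3 ^ c * (y : ℤ) + ρ * b + r) + (1 - r) := by
          rw [pow_succ, hr]
          ring
        have e : 2 * (3 ^ c * (y : ℤ) + ρ * b + r) + 1 = 3 ^ c * (2 * (y : ℤ)) + ρ * β := by
          rw [hb, hr]
          ring
        rw [← e] at h
        have h' := MM_eo34 hr h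
        rw [← e1] at h'
        exact h'
    -- the digit 1
    have hO : 2 ^ k * uu k (nx1 (c, β)) ≤ (((range (2 ^ k)).filter (fun y : ℕ => ¬ MM ρ (k + 1) c (2 * (y : ℤ) + 1)
        (3 ^ c * (2 * (y : ℤ) + 1) + ρ * β))).card : ℝ) := by
      rcases Int.even_or_odd' β with ⟨b, hb | hb⟩
      · have hbe : Even β := ⟨b, by rw [hb]; ring⟩
        have hb2 : (3 * β + (3 : ℤ) ^ c - 1) / 2 = 3 * b + t := by omega
        rw [nx1_even hbe, hb2]
        refine le_trans (ih c (3 * b + t)) ?_
        have hca := card_affine (P := fun x => ¬ MM ρ k c x (3 ^ c * x + ρ * (3 * b + t))) (hper c (3 * b + t)) hodd3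
          (1 - r)
        refine Nat.cast_le.2 (le_trans (le_trans (card_le34 _ _ _ fun _ h => h) hca.ge) (card_le34 _ _ _ ?_))
        intro y hy h
        apply hy
        have e1 : (3 : ℤ) ^ c * (3 * (y : ℤ) + (1 - r)) + ρ * (3 * b + t) =
            3 * (3 ^ c * (y : ℤ) + t + ρ * b) + (1 - r) := by
          rw [ht, hr]
          ring
        have e : 2 * (3 ^ c * (y : ℤ) + t + ρ * b) + 1 = 3 ^ c * (2 * (y : ℤ) + 1) + ρ * β := by
          rw [ht, hb]
          ring
        rw [← e] at h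
        have h' := MM_oo34 hr h
        rw [← e1] at h'
        exact h'
      · have hbo : ¬ Even β := by
          rw [Int.not_even_iff_odd]
          exact ⟨b, hb⟩
        rcases Nat.eq_zero_or_pos c with hc | hc
        · subst hc
          have hb2 : -((3 * β + 1) / 2) = -(3 * b + 2) := by omega
          rw [nx1_odd_zero hbo, hb2]
          refine le_trans (ih 1 (-(3 * b + 2))) ?_
          have hca := card_affine (P := fun x => ¬ MM ρ k 1 x (3 ^ 1 * x + ρ * (-(3 * b + 2))))
            (hper 1 (-(3 * b + 2))) odd_one (1 + ρ * b + r)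
          refine Nat.cast_le.2 (le_trans (le_trans (card_le34 _ _ _ fun _ h => h) hca.ge) (card_le34 _ _ _ ?_))
          intro y hy h
          apply hy
          have e1 : (3 : ℤ) ^ 1 * (1 * (y : ℤ) + (1 + ρ * b + r)) + ρ * (-(3 * b + 2)) =
              3 * (y : ℤ) + (1 - r) := by
            rw [hr]
            ring
          have e : 2 * (1 * (y : ℤ) + (1 + ρ * b + r)) = 3 ^ 0 * (2 * (y : ℤ) + 1) + ρ * β := by
            rw [hb, hr]
            ring
          rw [← e] at h
          have h' := MM_oe034 hr h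
          rw [← e1] at h'
          exact h'
        · obtain ⟨c', rfl⟩ : ∃ c', c = c' + 1 := ⟨c - 1, by omega⟩
          obtain ⟨u, hu⟩ : Odd ((3 : ℤ) ^ c') := hodd3.pow
          have hb2 : (β + (3 : ℤ) ^ (c' + 1 - 1)) / 2 = b + u + 1 := by
            rw [Nat.add_sub_cancel]
            omega
          rw [nx1_odd hbo (by omega), hb2, Nat.add_sub_cancel]
          refine le_trans (ih c' (b + u + 1)) ?_
          have hca := card_affine (P := fun x => ¬ MM ρ k c' x (3 ^ c' * x + ρ * (b + u + 1))) (hper c' (b + u + 1))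
            hodd3 (1 - r)
          refine Nat.cast_le.2 (le_trans (le_trans (card_le34 _ _ _ fun _ h => h) hca.ge) (card_le34 _ _ _ ?_))
          intro y hy h
          apply hy
          have e1 : (3 : ℤ) ^ c' * (3 * (y : ℤ) + (1 - r)) + ρ * (b + u + 1) =
              3 ^ (c' + 1) * (y : ℤ) + (3 * u + 1) + ρ * b + r + 1 := by
            rw [pow_succ, hu, hr]
            ring
          have e : 2 * (3 ^ (c' + 1) * (y : ℤ) + (3 * u + 1) + ρ * b + r + 1) =
              3 ^ (c' + 1) * (2 * (y : ℤ) + 1) + ρ * β := by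
            rw [pow_succ, hu, hb, hr]
            ring
          rw [← e] at h
          have h' := MM_oe34 hr h
          rw [← e1] at h'
          exact h'
    have hcd := card_double k (fun y => ¬ MM ρ (k + 1) c y (3 ^ c * y + ρ * β))
    have key : ((range (2 ^ k)).filter (fun y : ℕ => ¬ MM ρ (k + 1) c (2 * (y : ℤ))
          (3 ^ c * (2 * (y : ℤ)) + ρ * β))).card +
        ((range (2 ^ k)).filter (fun y : ℕ => ¬ MM ρ (k + 1) c (2 * (y : ℤ) + 1)
          (3 ^ c * (2 * (y : ℤ) + 1) + ρ * β))).card ≤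
        ((range (2 ^ (k + 1))).filter (fun y : ℕ => ¬ MM ρ (k + 1) c y (3 ^ c * y + ρ * β))).card :=
      le_trans (add_le_add (card_le34 _ _ _ fun _ h => h) (card_le34 _ _ _ fun _ h => h))
        (le_trans hcd.ge (card_le34 _ _ _ fun _ h => h))
    refine le_trans ?_ (Nat.cast_le.2 key)
    rw [Nat.cast_add, uu_succ, av]
    have e : (2 : ℝ) ^ (k + 1) * ((uu k (nx0 (c, β)) + uu k (nx1 (c, β))) / 2) =
        2 ^ k * uu k (nx0 (c, β)) + 2 ^ k * uu k (nx1 (c, β)) := by
      rw [pow_succ]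
      ring
    rw [e]
    exact add_le_add hE hO

theorem G3a : Pool.Agent.Helper54.GA.StmtG3a := by
  intro ρ hρ k c β
  refine (cnt_ge34 hρ k c β).trans (Nat.cast_le.2 (card_le34 _ _ _ fun _ h => h))

end Pool.Agent.Helper34.GA
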