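import Pool.Agent.Helper54.GA.Stmts2

/-!
# GA-G7: the sharp rate for a pair at the distance `≤ H`

`CO.first` with `a = b = e = D / √(K - t)` (`RU.uu_sharp`) and `t = ⌈17 (1 + log H)⌉`; for `K ≤ 2 t` the bound is trivial.
-/

set_option autoImplicit false

namespace Pool.Agent.Helper34.GA

open Pool.Agent.Helper8.CO Pool.Agent.Helper8.RU

theorem G7 : Pool.Agent.Helper54.GA.StmtG7 := by
  obtain ⟨D, hD, hu⟩ := uu_sharp
  refine ⟨6 + 40 * D, by positivity, fun K η H hK hH hη => ?_⟩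
  have hlH : 0 ≤ Real.log H := Real.log_nonneg hH
  obtain ⟨l, hl⟩ : ∃ l : ℝ, l = 1 + Real.log H := ⟨_, rfl⟩
  have hl1 : 1 ≤ l := by rw [hl]; linarith
  obtain ⟨t, ht⟩ : ∃ t : ℕ, t = ⌈17 * l⌉₊ := ⟨_, rfl⟩
  have htge : 17 * l ≤ t := by rw [ht]; exact Nat.le_ceil _
  have htle : (t : ℝ) ≤ 18 * l := by
    have h1 := Nat.ceil_lt_add_one (by positivity : 0 ≤ 17 * l)
    rw [← ht] at h1
    linarith
  have ht1 : 1 ≤ t := by
    have : (1 : ℝ) ≤ t := by linarith
    exact_mod_cast this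
  have hK1 : (1 : ℝ) ≤ K := by exact_mod_cast hK
  have hKp : (0 : ℝ) < K := by linarith
  rw [← hl]
  have hr0 : 0 ≤ Real.sqrt (l / K) := Real.sqrt_nonneg _
  by_cases hKt : K ≤ 2 * t
  · have h1 : (K : ℝ) ≤ 2 * t := by exact_mod_cast hKt
    have h2 : (1 / 6 : ℝ) ≤ Real.sqrt (l / K) := by
      refine Real.le_sqrt_of_sq_le ?_
      rw [le_div_iff₀ hKp]
      linarith
    have h3 := uu_le_one K (0, η)
    nlinarith [mul_nonneg hD.le hr0]
  push Not at hKt
  obtain ⟨k, rfl⟩ : ∃ k, K = t + k := ⟨K - t, by omega⟩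
  have hk1 : 1 ≤ k := by omega
  have hk1' : (1 : ℝ) ≤ k := by exact_mod_cast hk1
  have hkt : (t : ℝ) ≤ k := by
    have : t ≤ k := by omega
    exact_mod_cast this
  have hsk : 0 < Real.sqrt k := Real.sqrt_pos.2 (by linarith)
  have hh : (97 / 100 : ℝ) ^ t * Real.sqrt |(η : ℝ)| ≤ 1 := by
    have h1 : (97 / 100 : ℝ) ^ t ≤ Real.exp (-(1 / 2 * Real.log H)) := by
      have h2 : (97 / 100 : ℝ) ≤ Real.exp (-(3 / 100)) := by
        have := Real.add_one_le_exp (-(3 / 100 : ℝ))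
        linarith
      calc (97 / 100 : ℝ) ^ t ≤ Real.exp (-(3 / 100)) ^ t := pow_le_pow_left₀ (by norm_num) h2 t
        _ = Real.exp (t * (-(3 / 100))) := by rw [← Real.exp_nat_mul]
        _ ≤ Real.exp (-(1 / 2 * Real.log H)) := by
            apply Real.exp_le_exp.2
            linarith
    have h2 : Real.sqrt |(η : ℝ)| ≤ Real.exp (1 / 2 * Real.log H) := by
      refine (Real.sqrt_le_sqrt hη).trans ?_
      rw [Real.sqrt_le_left (Real.exp_pos _).le, pow_two, ← Real.exp_add]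
      have e : 1 / 2 * Real.log H + 1 / 2 * Real.log H = Real.log H := by ring
      rw [e, Real.exp_log (by linarith)]
    calc (97 / 100 : ℝ) ^ t * Real.sqrt |(η : ℝ)| ≤
          Real.exp (-(1 / 2 * Real.log H)) * Real.exp (1 / 2 * Real.log H) :=
          mul_le_mul h1 h2 (Real.sqrt_nonneg _) (Real.exp_pos _).le
      _ = 1 := by rw [← Real.exp_add, neg_add_cancel, Real.exp_zero]
  have hd : 0 ≤ D / Real.sqrt k := by positivity
  have hmain := first (a := D / Real.sqrt k) (b := D / Real.sqrt k) (e := D / Real.sqrt k) hd hd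
    (k := k) (fun x => (hu k x hk1).trans (le_of_eq (by ring))) ht1 hh
  refine hmain.trans ?_
  have hl0 : 0 ≤ Real.sqrt l := Real.sqrt_nonneg _
  have hl1s : 1 ≤ Real.sqrt l := Real.le_sqrt_of_sq_le (by linarith)
  have hst : Real.sqrt t ≤ 5 * Real.sqrt l := by
    rw [Real.sqrt_le_left (by positivity), mul_pow, Real.sq_sqrt (by linarith)]
    linarith
  have hK' : (((t + k : ℕ) : ℝ)) ≤ 2 * k := by
    push_cast
    linarith
  have hsq : 1 / Real.sqrt k ≤ 1.42 * (1 / Real.sqrt ((t + k : ℕ) : ℝ)) := by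
    have hKs : 0 < Real.sqrt ((t + k : ℕ) : ℝ) := Real.sqrt_pos.2 hKp
    rw [mul_one_div, div_le_div_iff₀ hsk hKs, one_mul]
    rw [Real.sqrt_le_left (by positivity), mul_pow, Real.sq_sqrt (by linarith)]
    have : (1.42 : ℝ) ^ 2 ≥ 2 := by norm_num
    nlinarith
  have hKs : Real.sqrt (l / ((t + k : ℕ) : ℝ)) = Real.sqrt l * (1 / Real.sqrt ((t + k : ℕ) : ℝ)) := by
    rw [Real.sqrt_div (by linarith), mul_one_div]
  rw [hKs]
  obtain ⟨z, hz⟩ : ∃ z : ℝ, z = 1 / Real.sqrt ((t + k : ℕ) : ℝ) := ⟨_, rfl⟩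
  have hz0 : 0 ≤ z := by rw [hz]; positivity
  rw [← hz] at hsq ⊢
  have h1 : D / Real.sqrt k * Real.sqrt t + 22 * (D / Real.sqrt k) + D / Real.sqrt k =
      D * (1 / Real.sqrt k) * (Real.sqrt t + 23) := by ring
  rw [h1]
  have h2 : Real.sqrt t + 23 ≤ 28 * Real.sqrt l := by linarith
  calc D * (1 / Real.sqrt k) * (Real.sqrt t + 23) ≤ D * (1.42 * z) * (28 * Real.sqrt l) :=
        mul_le_mul (mul_le_mul_of_nonneg_left hsq hD.le) h2 (by positivity) (by positivity)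
    _ = (39.76 * D) * (Real.sqrt l * z) := by ring
    _ ≤ (6 + 40 * D) * (Real.sqrt l * z) :=
        mul_le_mul_of_nonneg_right (by linarith) (by positivity)

end Pool.Agent.Helper34.GA
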