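import Pool.Agent.Helper54.GA.Stmts3

/-!
# GA-M3: the points which are not pure at some scale (double counting, from M1)
-/

set_option autoImplicit false

namespace Pool.Agent.Helper34.GA

open Pool.Agent.Helper68.Moeller Pool.Agent.Helper8 Pool.Agent.Helper8.CO Pool.Agent.Helper8.ND Filter Topology
open Pool.Agent.Helper54.GA

private theorem tn34 {k : ℤ} (hk : 0 ≤ k) : (k.toNat : ℝ) = (k : ℝ) := by
  have h := Int.toNat_of_nonneg hk
  exact_mod_cast congrArg (Int.cast : ℤ → ℝ) h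

open Classical in
/-- the differences -/
private noncomputable def hs34 (ρ : ℤ) (w : ℝ) : Finset ℤ := (Finset.Icc (-⌊w⌋) ⌊w⌋).filter (fun h => ρ ∣ h)

private theorem mem_hs34 {ρ : ℤ} {w : ℝ} {h : ℤ} : h ∈ hs34 ρ w ↔ ρ ∣ h ∧ |(h : ℝ)| ≤ w := by
  unfold hs34
  rw [Finset.mem_filter, Finset.mem_Icc]
  constructor
  · rintro ⟨⟨h1, h2⟩, h3⟩
    refine ⟨h3, abs_le.2 ⟨?_, Int.le_floor.1 h2⟩⟩
    have h4 : -h ≤ ⌊w⌋ := by omega
    have h5 := Int.le_floor.1 h4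
    push_cast at h5
    linarith
  · rintro ⟨h3, h4⟩
    obtain ⟨h5, h6⟩ := abs_le.1 h4
    refine ⟨⟨?_, Int.le_floor.2 h6⟩, h3⟩
    have h7 : -h ≤ ⌊w⌋ := Int.le_floor.2 (by push_cast; linarith)
    omega

private theorem card_hs34 (ρ : ℤ) {w : ℝ} (hw : 0 ≤ w) : ((hs34 ρ w).card : ℝ) ≤ 2 * w + 1 := by
  unfold hs34
  refine (Nat.cast_le.2 (Finset.card_filter_le _ _)).trans ?_
  rw [Int.card_Icc]
  have h1 : (0 : ℤ) ≤ ⌊w⌋ := Int.floor_nonneg.2 hw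
  have h2 : ((⌊w⌋ + 1 - -⌊w⌋).toNat : ℝ) = ((⌊w⌋ + 1 - -⌊w⌋ : ℤ) : ℝ) := tn34 (by omega)
  rw [h2]
  push_cast
  have := Int.floor_le w
  linarith

/-- the multiples of `ρ` in a window of a point -/
private theorem card_win34 {ρ : ℤ} (hρ : ρ ≠ 0) {s x : ℝ} (hs : 1 ≤ s) (hsx : s ≤ x) {n : ℤ} (hn : s < n) (hnx : (n : ℝ) ≤ x) :
    s / |(ρ : ℝ)| ≤ (((Finset.Ioc (0 : ℤ) ⌊2 * x⌋).filter (fun m => n - m ∈ hs34 ρ s)).card : ℝ) := by
  have hρ0 : 0 < |(ρ : ℝ)| := abs_pos.2 (by exact_mod_cast hρ)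
  obtain ⟨J, hJ⟩ : ∃ J : ℤ, J = ⌊s / |(ρ : ℝ)|⌋ := ⟨_, rfl⟩
  have hJ0 : 0 ≤ J := by
    rw [hJ]
    exact Int.floor_nonneg.2 (by positivity)
  have hJ1 : (J : ℝ) * |(ρ : ℝ)| ≤ s := by
    have h1 := Int.floor_le (s / |(ρ : ℝ)|)
    rw [← hJ, le_div_iff₀ hρ0] at h1
    exact h1
  have hJ2 : s / |(ρ : ℝ)| < J + 1 := by
    rw [hJ]
    exact Int.lt_floor_add_one _
  have hcard : (Finset.Icc (-J) J).card ≤ ((Finset.Ioc (0 : ℤ) ⌊2 * x⌋).filter (fun m => n - m ∈ hs34 ρ s)).card := by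
    refine Finset.card_le_card_of_injOn (fun j => n + ρ * j) ?_ ?_
    · intro j hj
      rw [Finset.mem_coe, Finset.mem_Icc] at hj
      have h1 : |(ρ * j : ℝ)| ≤ s := by
        rw [abs_mul]
        have h2 : |(j : ℝ)| ≤ J := abs_le.2 ⟨by exact_mod_cast hj.1, by exact_mod_cast hj.2⟩
        calc |(ρ : ℝ)| * |(j : ℝ)| ≤ |(ρ : ℝ)| * J := mul_le_mul_of_nonneg_left h2 hρ0.le
          _ = J * |(ρ : ℝ)| := mul_comm _ _
          _ ≤ s := hJ1
      obtain ⟨h3, h4⟩ := abs_le.1 h1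
      rw [Finset.mem_coe, Finset.mem_filter, Finset.mem_Ioc, mem_hs34]
      refine ⟨⟨?_, Int.le_floor.2 ?_⟩, ?_, ?_⟩
      · have : (0 : ℝ) < ((n + ρ * j : ℤ) : ℝ) := by
          push_cast
          linarith
        exact_mod_cast this
      · push_cast
        linarith
      · exact ⟨-j, by ring⟩
      · have e : ((n - (n + ρ * j) : ℤ) : ℝ) = -(ρ * j : ℝ) := by
          push_cast
          ring
        rw [e, abs_neg]
        exact h1
    · intro a _ b _ hab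
      have h1 : ρ * a = ρ * b := by
        have : n + ρ * a = n + ρ * b := hab
        linarith
      exact mul_left_cancel₀ hρ h1
  have hJc : ((Finset.Icc (-J) J).card : ℝ) = 2 * J + 1 := by
    rw [Int.card_Icc]
    have h4 : ((J + 1 - -J).toNat : ℝ) = ((J + 1 - -J : ℤ) : ℝ) := tn34 (by omega)
    rw [h4]
    push_cast
    ring
  have h5 : ((Finset.Icc (-J) J).card : ℝ) ≤ (((Finset.Ioc (0 : ℤ) ⌊2 * x⌋).filter (fun m => n - m ∈ hs34 ρ s)).card : ℝ) := by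
    exact_mod_cast hcard
  refine le_trans ?_ h5
  rw [hJc]
  rcases hJ0.eq_or_lt with h6 | h6
  · rw [← h6] at hJ2 ⊢
    push_cast at hJ2 ⊢
    linarith
  · have h7 : (1 : ℝ) ≤ J := by exact_mod_cast h6
    linarith

open Classical in
/-- one side -/
private theorem side34 (hM1 : StmtM1) {ρ : ℤ} (hρ : ρ ≠ 0) {G : Set ℤ} {ε s : ℝ} (hε : 0 < ε) (hε1 : ε ≤ 1) (m : ℤ) (F : Finset ℤ)
    (hF : ∀ n ∈ F, n ∈ G ∧ n - m ∈ hs34 ρ s ∧ ∃ t : ℝ, 1 ≤ t ∧ t ≤ s ∧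
      ε * t < ({h : ℤ | ρ ∣ h ∧ |(h : ℝ)| ≤ t ∧ ¬ (n + h ∈ G ↔ n ∈ G)}.ncard : ℝ)) (hs : 0 ≤ s) :
    (F.card : ℝ) ≤ 6 / ε * (((hs34 ρ (2 * s)).filter (fun h => m + h ∉ G)).card : ℝ) ∧
      (F.card : ℝ) ≤ 6 / ε * (((hs34 ρ (2 * s)).filter (fun h => m + h ∈ G)).card : ℝ) := by
  constructor
  · choose! t ht using fun n hn => (hF n hn).2.2
    have hA : (((hs34 ρ (2 * s)).filter (fun h => m + h ∉ G)).image (fun h => m + h)).card ≤
        ((hs34 ρ (2 * s)).filter (fun h => m + h ∉ G)).card := Finset.card_image_le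
    have h1 := hM1 ρ ε hρ hε F (((hs34 ρ (2 * s)).filter (fun h => m + h ∉ G)).image (fun h => m + h)) t (fun n hn => by
      obtain ⟨ht1, ht2, ht3⟩ := ht n hn
      obtain ⟨hnG, hnm, _⟩ := hF n hn
      obtain ⟨hnd, hna⟩ := mem_hs34.1 hnm
      refine ⟨ht1, ht3.trans_le ?_⟩
      refine Nat.cast_le.2 (Set.ncard_le_ncard_of_injOn (fun h => n + h) ?_ ?_ ?_)
      · rintro h ⟨hd, ha, hi⟩
        refine ⟨?_, ?_, ?_⟩
        · rw [Finset.mem_image]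
          refine ⟨n - m + h, ?_, by ring⟩
          rw [Finset.mem_filter, mem_hs34]
          refine ⟨⟨dvd_add hnd hd, ?_⟩, ?_⟩
          · push_cast at hna ⊢
            refine (abs_add_le _ _).trans ?_
            linarith
          · intro h2
            have e : m + (n - m + h) = n + h := by ring
            rw [e] at h2
            exact hi ⟨fun _ => hnG, fun _ => h2⟩
        · have e : n + h - n = h := by ring
          rw [e]
          exact hd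
        · have e : n + h - n = h := by ring
          rw [e]
          exact ha
      · intro a _ b _ hab
        have : n + a = n + b := hab
        linarith
      · exact (Finset.finite_toSet (((hs34 ρ (2 * s)).filter (fun h => m + h ∉ G)).image (fun h => m + h))).subset fun k hk => hk.1)
    refine h1.trans ?_
    have h2 : (0 : ℝ) ≤ 6 / ε := by positivity
    exact mul_le_mul_of_nonneg_left (by exact_mod_cast hA) h2
  · have h1 : F.card ≤ ((hs34 ρ (2 * s)).filter (fun h => m + h ∈ G)).card := by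
      refine Finset.card_le_card_of_injOn (fun n => n - m) ?_ ?_
      · intro n hn
        obtain ⟨hnG, hnm, _⟩ := hF n hn
        obtain ⟨hnd, hna⟩ := mem_hs34.1 hnm
        rw [Finset.mem_coe, Finset.mem_filter, mem_hs34]
        refine ⟨⟨hnd, ?_⟩, ?_⟩
        · linarith
        · have e : m + (n - m) = n := by ring
          simp only
          rw [e]
          exact hnG
      · intro a _ b _ hab
        have : a - m = b - m := hab
        linarith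
    have h2 : (1 : ℝ) ≤ 6 / ε := by
      rw [le_div_iff₀ hε]
      linarith
    have h3 : (F.card : ℝ) ≤ (((hs34 ρ (2 * s)).filter (fun h => m + h ∈ G)).card : ℝ) := by exact_mod_cast h1
    refine h3.trans (le_mul_of_one_le_left (Nat.cast_nonneg _) h2)

open Classical in
/-- the points of `F` near `m` -/
private theorem near34 (hM1 : StmtM1) {ρ : ℤ} (hρ : ρ ≠ 0) {G : Set ℤ} {ε s : ℝ} (hε : 0 < ε) (hε1 : ε ≤ 1) (hs : 0 ≤ s) (m : ℤ) (F : Finset ℤ)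
    (hF : ∀ n ∈ F, ∃ t : ℝ, 1 ≤ t ∧ t ≤ s ∧
      ε * t < ({h : ℤ | ρ ∣ h ∧ |(h : ℝ)| ≤ t ∧ ¬ (n + h ∈ G ↔ n ∈ G)}.ncard : ℝ)) :
    ((F.filter (fun n => n - m ∈ hs34 ρ s)).card : ℝ) ≤
      12 / ε * (((hs34 ρ (2 * s)).filter (fun h => ¬ (m + h ∈ G ↔ m ∈ G))).card : ℝ) := by
  have e0 : (F.filter (fun n => n - m ∈ hs34 ρ s)).card =
      ((F.filter (fun n => n - m ∈ hs34 ρ s)).filter (fun n => n ∈ G)).card +
      ((F.filter (fun n => n - m ∈ hs34 ρ s)).filter (fun n => ¬ n ∈ G)).card :=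
    (Finset.card_filter_add_card_filter_not _).symm
  have h1 := side34 hM1 hρ (G := G) hε hε1 m ((F.filter (fun n => n - m ∈ hs34 ρ s)).filter (fun n => n ∈ G)) (fun n hn => by
    rw [Finset.mem_filter, Finset.mem_filter] at hn
    exact ⟨hn.2, hn.1.2, hF n hn.1.1⟩) hs
  have h2 := side34 hM1 hρ (G := Gᶜ) hε hε1 m ((F.filter (fun n => n - m ∈ hs34 ρ s)).filter (fun n => ¬ n ∈ G)) (fun n hn => by
    rw [Finset.mem_filter, Finset.mem_filter] at hn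
    obtain ⟨t, ht1, ht2, ht3⟩ := hF n hn.1.1
    refine ⟨hn.2, hn.1.2, t, ht1, ht2, ?_⟩
    have e : {h : ℤ | ρ ∣ h ∧ |(h : ℝ)| ≤ t ∧ ¬ (n + h ∈ Gᶜ ↔ n ∈ Gᶜ)} = {h : ℤ | ρ ∣ h ∧ |(h : ℝ)| ≤ t ∧ ¬ (n + h ∈ G ↔ n ∈ G)} := by
      ext h
      simp only [Set.mem_ofPred_eq, Set.mem_compl_iff]
      tauto
    rw [e]
    exact ht3) hs
  have e1 : (F.filter (fun n => n - m ∈ hs34 ρ s)).card = ((F.filter (fun n => n - m ∈ hs34 ρ s)).card : ℝ) := rfl
  have e2 : ((F.filter (fun n => n - m ∈ hs34 ρ s)).card : ℝ) =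
      (((F.filter (fun n => n - m ∈ hs34 ρ s)).filter (fun n => n ∈ G)).card : ℝ) +
      (((F.filter (fun n => n - m ∈ hs34 ρ s)).filter (fun n => ¬ n ∈ G)).card : ℝ) := by exact_mod_cast e0
  rw [e2]
  have h2' : (((F.filter (fun n => n - m ∈ hs34 ρ s)).filter (fun n => ¬ n ∈ G)).card : ℝ) ≤
        6 / ε * (((hs34 ρ (2 * s)).filter (fun h => m + h ∈ G)).card : ℝ) ∧
      (((F.filter (fun n => n - m ∈ hs34 ρ s)).filter (fun n => ¬ n ∈ G)).card : ℝ) ≤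
        6 / ε * (((hs34 ρ (2 * s)).filter (fun h => m + h ∉ G)).card : ℝ) := by
    refine ⟨h2.1.trans (le_of_eq ?_), h2.2.trans (le_of_eq ?_)⟩
    · refine congrArg (fun k : ℕ => 6 / ε * (k : ℝ)) (congrArg Finset.card ?_)
      ext h
      simp only [Finset.mem_filter, Set.mem_compl_iff, not_not]
    · refine congrArg (fun k : ℕ => 6 / ε * (k : ℝ)) (congrArg Finset.card ?_)
      ext h
      simp only [Finset.mem_filter, Set.mem_compl_iff]
  by_cases hm : m ∈ G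
  · have e5 : (hs34 ρ (2 * s)).filter (fun h => ¬ (m + h ∈ G ↔ m ∈ G)) = (hs34 ρ (2 * s)).filter (fun h => m + h ∉ G) := by
      refine Finset.filter_congr fun h _ => ?_
      tauto
    rw [e5]
    calc _ ≤ 6 / ε * (((hs34 ρ (2 * s)).filter (fun h => m + h ∉ G)).card : ℝ) +
          6 / ε * (((hs34 ρ (2 * s)).filter (fun h => m + h ∉ G)).card : ℝ) := add_le_add h1.1 h2'.2
      _ = _ := by ring
  · have e5 : (hs34 ρ (2 * s)).filter (fun h => ¬ (m + h ∈ G ↔ m ∈ G)) = (hs34 ρ (2 * s)).filter (fun h => m + h ∈ G) := by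
      refine Finset.filter_congr fun h _ => ?_
      tauto
    rw [e5]
    calc _ ≤ 6 / ε * (((hs34 ρ (2 * s)).filter (fun h => m + h ∈ G)).card : ℝ) +
          6 / ε * (((hs34 ρ (2 * s)).filter (fun h => m + h ∈ G)).card : ℝ) := add_le_add h1.2 h2'.1
      _ = _ := by ring

open Classical in
theorem m3 : StmtM1 → StmtM3 := by
  intro hM1 ρ G ε x s q hρ hε hε1 hs hsx hq hh
  have hρ0 : 0 < |(ρ : ℝ)| := abs_pos.2 (by exact_mod_cast hρ)
  have hs0 : 0 ≤ s := by linarith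
  obtain ⟨F, hF⟩ : ∃ F : Finset ℤ, F = (Finset.Ioc (0 : ℤ) ⌊x⌋).filter (fun n : ℤ => s < n ∧ ∃ t : ℝ, 1 ≤ t ∧ t ≤ s ∧
    ε * t < ({h : ℤ | ρ ∣ h ∧ |(h : ℝ)| ≤ t ∧ ¬ (n + h ∈ G ↔ n ∈ G)}.ncard : ℝ)) := ⟨_, rfl⟩
  obtain ⟨M, hM⟩ : ∃ M : Finset ℤ, M = Finset.Ioc (0 : ℤ) ⌊2 * x⌋ := ⟨_, rfl⟩
  have hcN : cN {n : ℤ | s < n ∧ ∃ t : ℝ, 1 ≤ t ∧ t ≤ s ∧
      ε * t < ({h : ℤ | ρ ∣ h ∧ |(h : ℝ)| ≤ t ∧ ¬ (n + h ∈ G ↔ n ∈ G)}.ncard : ℝ)} x = (F.card : ℝ) := by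
    unfold cN
    rw [← Set.ncard_coe_finset F]
    congr 2
    ext n
    rw [hF]
    simp only [Set.mem_ofPred_eq, Finset.coe_filter, Finset.mem_Ioc, Int.le_floor]
    tauto
  rw [hcN]
  -- first count
  have h1 : (F.card : ℝ) * (s / |(ρ : ℝ)|) ≤ ∑ n ∈ F, ((M.filter (fun m => n - m ∈ hs34 ρ s)).card : ℝ) := by
    rw [← nsmul_eq_mul, ← Finset.sum_const]
    refine Finset.sum_le_sum fun n hn => ?_
    rw [hF, Finset.mem_filter, Finset.mem_Ioc, Int.le_floor] at hn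
    rw [hM]
    exact card_win34 hρ hs hsx hn.2.1 hn.1.2
  have h2 : ∑ n ∈ F, ((M.filter (fun m => n - m ∈ hs34 ρ s)).card : ℝ) = ∑ m ∈ M, ((F.filter (fun n => n - m ∈ hs34 ρ s)).card : ℝ) := by
    have h3 := Finset.sum_card_bipartiteAbove_eq_sum_card_bipartiteBelow (s := F) (t := M) (fun n m => n - m ∈ hs34 ρ s)
    unfold Finset.bipartiteAbove Finset.bipartiteBelow at h3
    exact_mod_cast h3
  have h3 : ∑ m ∈ M, ((F.filter (fun n => n - m ∈ hs34 ρ s)).card : ℝ) ≤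
      ∑ m ∈ M, 12 / ε * (((hs34 ρ (2 * s)).filter (fun h => ¬ (m + h ∈ G ↔ m ∈ G))).card : ℝ) := by
    refine Finset.sum_le_sum fun m _ => near34 hM1 hρ hε hε1 hs0 m F fun n hn => ?_
    rw [hF, Finset.mem_filter] at hn
    exact hn.2.2
  have h4 : ∑ m ∈ M, (((hs34 ρ (2 * s)).filter (fun h => ¬ (m + h ∈ G ↔ m ∈ G))).card : ℝ) =
      ∑ h ∈ hs34 ρ (2 * s), ((M.filter (fun m => ¬ (m + h ∈ G ↔ m ∈ G))).card : ℝ) := by
    have h5 := Finset.sum_card_bipartiteAbove_eq_sum_card_bipartiteBelow (s := M) (t := hs34 ρ (2 * s)) (fun m h => ¬ (m + h ∈ G ↔ m ∈ G))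
    unfold Finset.bipartiteAbove Finset.bipartiteBelow at h5
    exact_mod_cast h5
  have h5 : ∑ h ∈ hs34 ρ (2 * s), ((M.filter (fun m => ¬ (m + h ∈ G ↔ m ∈ G))).card : ℝ) ≤ 6 * s * q := by
    have h6 : ∀ h ∈ hs34 ρ (2 * s), ((M.filter (fun m => ¬ (m + h ∈ G ↔ m ∈ G))).card : ℝ) ≤ q := by
      intro h hh'
      obtain ⟨hd, ha⟩ := mem_hs34.1 hh'
      refine le_trans (le_of_eq ?_) (hh h hd ha)
      unfold cN
      rw [← Set.ncard_coe_finset]
      congr 2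
      ext n
      rw [hM]
      simp only [Set.mem_ofPred_eq, Finset.coe_filter, Finset.mem_Ioc, Int.le_floor]
      tauto
    refine (Finset.sum_le_sum h6).trans ?_
    rw [Finset.sum_const, nsmul_eq_mul]
    refine mul_le_mul_of_nonneg_right ((card_hs34 ρ (by positivity : (0 : ℝ) ≤ 2 * s)).trans ?_) hq
    linarith
  rw [← Finset.mul_sum, h4] at h3
  have h6 : (F.card : ℝ) * (s / |(ρ : ℝ)|) ≤ 12 / ε * (6 * s * q) := by
    refine h1.trans (h2.le.trans (h3.trans ?_))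
    exact mul_le_mul_of_nonneg_left h5 (by positivity)
  have hsp : 0 < s := by linarith
  have h7 : (F.card : ℝ) * (s / |(ρ : ℝ)|) * (|(ρ : ℝ)| / s) ≤ 12 / ε * (6 * s * q) * (|(ρ : ℝ)| / s) :=
    mul_le_mul_of_nonneg_right h6 (by positivity)
  have e1 : (F.card : ℝ) * (s / |(ρ : ℝ)|) * (|(ρ : ℝ)| / s) = F.card := by
    field_simp
  have e2 : 12 / ε * (6 * s * q) * (|(ρ : ℝ)| / s) = 72 * |(ρ : ℝ)| / ε * q := by
    field_simp
    ring
  rw [e1, e2] at h7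
  exact h7

end Pool.Agent.Helper34.GA
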