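import Pool.Agent.Helper54.GA.Stmts3
import Pool.Agent.Helper54.GA.G56

/-!
# GA-M5: invariant sets are pure in the windows of the size `s` around almost all points (from G1)
-/

set_option autoImplicit false

namespace Pool.Agent.Helper34.GA

open Pool.Agent.Helper68.Moeller Pool.Agent.Helper8 Pool.Agent.Helper8.CO Pool.Agent.Helper8.ND Pool.Agent.Helper28 Filter Topology
open Pool.Agent.Helper54.GA

theorem m5 : StmtG1 → StmtM5 := by
  intro h1 ρ hρ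
  obtain ⟨C, hC, hG1⟩ := h1 ρ hρ
  have hl2 : 0 < Real.log 2 := Real.log_pos (by norm_num)
  have hl21 : Real.log 2 ≤ 1 := by linarith [Real.log_two_lt_d9]
  refine ⟨1 + 3 * C, by positivity, fun G z hG => ?_⟩
  obtain ⟨K, hK⟩ : ∃ K : ℝ, K = |(ρ : ℝ)| + |(z : ℝ)| + 1 := ⟨_, rfl⟩
  have hK1 : 1 ≤ K := by
    have h1 := abs_nonneg (ρ : ℝ)
    have h2 := abs_nonneg (z : ℝ)
    linarith
  have hev1 : ∀ᶠ x : ℝ in atTop, K + 1 ≤ Real.sqrt (Real.sqrt x) :=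
    (Real.tendsto_sqrt_atTop.comp Real.tendsto_sqrt_atTop).eventually_ge_atTop _
  have hev2 : ∀ᶠ x : ℝ in atTop, 16 ≤ Real.log x := Real.tendsto_log_atTop.eventually_ge_atTop _
  filter_upwards [hev1, hev2, eventually_ge_atTop (1 : ℝ)] with x hx1 hx2 hx4 s hs
  have hx0 : 0 < x := by linarith
  obtain ⟨L, hL⟩ : ∃ L : ℝ, L = Real.log x := ⟨_, rfl⟩
  rw [← hL] at hx2 ⊢
  have hL0 : 0 < L := by linarith
  have hsL : 0 < Real.sqrt L := Real.sqrt_pos.2 hL0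
  have hsL4 : 4 ≤ Real.sqrt L := Real.le_sqrt_of_sq_le (by linarith)
  have hsLL : Real.sqrt L * Real.sqrt L = L := Real.mul_self_sqrt hL0.le
  have hsx : 0 < Real.sqrt x := Real.sqrt_pos.2 hx0
  have hsxx : Real.sqrt x * Real.sqrt x = x := Real.mul_self_sqrt hx0.le
  obtain ⟨q, hq⟩ : ∃ q : ℝ, q = Real.sqrt (Real.sqrt x) := ⟨_, rfl⟩
  rw [← hq] at hx1
  have hqq : q * q = Real.sqrt x := by rw [hq]; exact Real.mul_self_sqrt hsx.le
  have hq0 : 0 < q := by linarith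
  have hlogs : 0 ≤ Real.log s := Real.log_nonneg hs
  have hlq : Real.log q = L / 4 := by
    rw [hq, Real.log_sqrt hsx.le, Real.log_sqrt hx0.le, hL]
    ring
  have hcN : ∀ A : Set ℤ, cN A x ≤ x := fun A => cN_le A hx0.le
  have hr0 : 0 ≤ (1 + Real.log s) / Real.sqrt L := by positivity
  rcases lt_or_ge q s with hqs | hsq
  · -- large windows: trivial
    refine (hcN _).trans ?_
    have h2 : L / 4 ≤ Real.log s := by
      rw [← hlq]
      exact Real.log_le_log hq0 hqs.le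
    have h3 : 1 ≤ (1 + Real.log s) / Real.sqrt L := by
      rw [le_div_iff₀ hsL]
      nlinarith
    have h4 : 1 ≤ (1 + 3 * C) * ((1 + Real.log s) / Real.sqrt L) := by nlinarith
    nlinarith
  -- the time
  obtain ⟨k, hk⟩ : ∃ k : ℕ, k = ⌊L / (4 * Real.log 2)⌋₊ := ⟨_, rfl⟩
  have hk1 : (k : ℝ) ≤ L / (4 * Real.log 2) := by rw [hk]; exact Nat.floor_le (by positivity)
  have hk2 : L / (4 * Real.log 2) < k + 1 := by rw [hk]; exact Nat.lt_floor_add_one _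
  have hk3 : L / 4 ≤ L / (4 * Real.log 2) := by
    apply div_le_div_of_nonneg_left hL0.le (by positivity)
    linarith
  have hk4 : L / 8 ≤ k := by linarith
  have hkpos : 1 ≤ k := by
    have h2 : (1 : ℝ) ≤ k := by linarith
    exact_mod_cast h2
  have h2kq : (2 : ℝ) ^ k ≤ q := by
    rw [← Real.log_le_log_iff (by positivity) hq0, Real.log_pow, hlq]
    rw [le_div_iff₀ (by positivity)] at hk1
    linarith
  have hq1 : 1 ≤ q := by linarith
  have hqx : q ≤ x := by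
    have h2 : q ≤ Real.sqrt x := by nlinarith
    have h3 : Real.sqrt x ≤ x := by
      rw [Real.sqrt_le_left hx0.le]
      nlinarith
    linarith
  have hmain := hG1 k x s hkpos (h2kq.trans hqx) hs
  have hk0 : (0 : ℝ) < k := by exact_mod_cast hkpos
  have hbound : (1 + Real.log s) / Real.sqrt k ≤ 3 * ((1 + Real.log s) / Real.sqrt L) := by
    have h2 : Real.sqrt L ≤ 3 * Real.sqrt k := by
      rw [Real.sqrt_le_left (by positivity), mul_pow, Real.sq_sqrt hk0.le]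
      linarith
    rw [div_le_iff₀ (Real.sqrt_pos.2 hk0)]
    have h3 : 3 * ((1 + Real.log s) / Real.sqrt L) * Real.sqrt k = (1 + Real.log s) * ((3 * Real.sqrt k) / Real.sqrt L) := by
      ring
    rw [h3]
    have h4 : 1 ≤ (3 * Real.sqrt k) / Real.sqrt L := by
      rw [le_div_iff₀ hsL]
      linarith
    nlinarith
  -- the inclusion
  have hsub : cN {n : ℤ | ∃ h : ℤ, ρ ∣ h ∧ |(h : ℝ)| ≤ s ∧ ¬ (n + h ∈ G ↔ n ∈ G)} x ≤
      cN {n : ℤ | ∃ h : ℤ, ρ ∣ h ∧ |(h : ℝ)| ≤ s ∧ ¬ MM ρ k 0 n (n + h)} x + Real.sqrt x := by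
    have e1 : {n : ℤ | n ∈ {n : ℤ | ∃ h : ℤ, ρ ∣ h ∧ |(h : ℝ)| ≤ s ∧ ¬ (n + h ∈ G ↔ n ∈ G)} ∧ 0 < n ∧ (n : ℝ) ≤ x} ⊆
        {n : ℤ | n ∈ {n : ℤ | ∃ h : ℤ, ρ ∣ h ∧ |(h : ℝ)| ≤ s ∧ ¬ MM ρ k 0 n (n + h)} ∧ 0 < n ∧ (n : ℝ) ≤ x} ∪
        {n : ℤ | n ∈ (Set.univ : Set ℤ) ∧ 0 < n ∧ (n : ℝ) ≤ Real.sqrt x} := by
      rintro n ⟨a1, a2, a3⟩
      by_cases h2 : (n : ℝ) ≤ Real.sqrt x
      · exact Or.inr ⟨Set.mem_univ n, a2, h2⟩
      · left
        refine ⟨?_, a2, a3⟩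
        push Not at h2
        obtain ⟨h, b1, b2, b3⟩ := a1
        refine ⟨h, b1, b2, fun hM => b3 ?_⟩
        have h5 : (2 : ℝ) ^ k * K ≤ q * K := mul_le_mul_of_nonneg_right h2kq (by linarith)
        have h6 : q * (K + 1) ≤ Real.sqrt x := by
          rw [← hqq]
          exact mul_le_mul_of_nonneg_left hx1 hq0.le
        have hg1 : (2 : ℝ) ^ k * (|(ρ : ℝ)| + |(z : ℝ)| + 1) ≤ n := by
          rw [← hK]
          nlinarith
        have hg2 : (2 : ℝ) ^ k * (|(ρ : ℝ)| + |(z : ℝ)| + 1) ≤ ((n + h : ℤ) : ℝ) := by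
          rw [← hK]
          push_cast
          have := neg_abs_le (h : ℝ)
          nlinarith
        rw [mem_iter54 hρ hG hg2, mem_iter54 hρ hG hg1, hM.1]
    have e2 := (Set.ncard_le_ncard e1 ((finite_cN _ x).union (finite_cN _ _))).trans (Set.ncard_union_le _ _)
    have e3 : cN {n : ℤ | ∃ h : ℤ, ρ ∣ h ∧ |(h : ℝ)| ≤ s ∧ ¬ (n + h ∈ G ↔ n ∈ G)} x ≤
      cN {n : ℤ | ∃ h : ℤ, ρ ∣ h ∧ |(h : ℝ)| ≤ s ∧ ¬ MM ρ k 0 n (n + h)} x + cN Set.univ (Real.sqrt x) := by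
      unfold cN
      exact_mod_cast e2
    have e4 := cN_le Set.univ (x := Real.sqrt x) (by positivity)
    linarith
  have hmin : C * min 1 ((1 + Real.log s) / Real.sqrt k) * x ≤ C * (3 * ((1 + Real.log s) / Real.sqrt L)) * x := by
    apply mul_le_mul_of_nonneg_right _ hx0.le
    exact mul_le_mul_of_nonneg_left ((min_le_right _ _).trans hbound) hC.le
  -- the small points
  have hsmall : Real.sqrt x ≤ (1 + Real.log s) / Real.sqrt L * x := by
    have h2 : Real.sqrt L ≤ Real.sqrt x := by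
      apply Real.sqrt_le_sqrt
      rw [hL]
      have := Real.log_le_sub_one_of_pos hx0
      linarith
    have h3 : Real.sqrt x * Real.sqrt L ≤ x := by
      calc Real.sqrt x * Real.sqrt L ≤ Real.sqrt x * Real.sqrt x := mul_le_mul_of_nonneg_left h2 hsx.le
        _ = x := hsxx
    rw [div_mul_eq_mul_div, le_div_iff₀ hsL]
    nlinarith
  calc cN {n : ℤ | ∃ h : ℤ, ρ ∣ h ∧ |(h : ℝ)| ≤ s ∧ ¬ (n + h ∈ G ↔ n ∈ G)} x
      ≤ C * min 1 ((1 + Real.log s) / Real.sqrt k) * x + Real.sqrt x := hsub.trans (by linarith)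
    _ ≤ C * (3 * ((1 + Real.log s) / Real.sqrt L)) * x + (1 + Real.log s) / Real.sqrt L * x := add_le_add hmin hsmall
    _ = (1 + 3 * C) * ((1 + Real.log s) / Real.sqrt L) * x := by ring

end Pool.Agent.Helper34.GA
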